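import Mathlib

/-!
# Maynard-Tao for linear forms: common definitions

`Pool.Agent.helper39.MT` proves the theorem of Maynard and Tao (two primes among `k` linear forms
infinitely often, `k` large) with logarithmic weights, and applies it to `a p - b q = c`.
-/

namespace Pool.Agent.helper39.MT

open Finset Real ArithmeticFunction

/-! ## Analytic part -/

/-- A fixed smooth bump, equal to `1` on `[5/8, 7/8]` and supported in `[1/2, 1]`. -/
noncomputable def bump : ContDiffBump (3 / 4 : ℝ) := ⟨1 / 8, 1 / 4, by norm_num, by norm_num⟩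

/-- The bump function as a function. -/
noncomputable def V (u : ℝ) : ℝ := bump u

lemma V_nonneg (u : ℝ) : 0 ≤ V u := bump.nonneg

lemma V_le_one (u : ℝ) : V u ≤ 1 := bump.le_one

lemma V_eq_one {u : ℝ} (h₁ : 5 / 8 ≤ u) (h₂ : u ≤ 7 / 8) : V u = 1 :=
  bump.one_of_mem_closedBall (by
    rw [Metric.mem_closedBall, Real.dist_eq]
    exact abs_le.2 ⟨by simp only [bump]; linarith, by simp only [bump]; linarith⟩)

lemma V_eq_zero_left {u : ℝ} (h : u ≤ 1 / 2) : V u = 0 :=
  bump.zero_of_le_dist (by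
    rw [Real.dist_eq]
    refine le_trans ?_ (neg_le_abs _)
    simp only [bump]; linarith)

lemma V_eq_zero_right {u : ℝ} (h : 1 ≤ u) : V u = 0 :=
  bump.zero_of_le_dist (by
    rw [Real.dist_eq]
    refine le_trans ?_ (le_abs_self _)
    simp only [bump]; linarith)

lemma V_contDiff : ContDiff ℝ (⊤ : ℕ∞) V := bump.contDiff

lemma V_hasCompactSupport : HasCompactSupport V := bump.hasCompactSupport

/-- The weight `V((log n - a)/L)/n`. -/
noncomputable def wt (L a : ℝ) (n : ℕ) : ℝ := V ((Real.log n - a) / L) / n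

/-- All `n` with `wt L a n ≠ 0` are at most `NN L a`. -/
noncomputable def NN (L a : ℝ) : ℕ := ⌊Real.exp (L + a)⌋₊

/-- `∑ Λ(n) χ(n) V((log n - a)/L)/n`. -/
noncomputable def TT {q : ℕ} (χ : DirichletCharacter ℂ q) (L a : ℝ) : ℂ :=
  ∑ n ∈ Ioc 0 (NN L a), (vonMangoldt n : ℂ) * χ n * (wt L a n : ℂ)

/-- `∑ χ(n) (log n)^j n^(-s)`. -/
noncomputable def DD {q : ℕ} (χ : DirichletCharacter ℂ q) (j : ℕ) (s : ℂ) : ℂ :=
  LSeries (fun n => χ n * (Real.log n : ℂ) ^ j) s

/-- `∑ Λ(n) χ(n) (log n)^j n^(-s)`. -/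
noncomputable def GG {q : ℕ} (χ : DirichletCharacter ℂ q) (j : ℕ) (s : ℂ) : ℂ :=
  LSeries (fun n => (vonMangoldt n : ℂ) * χ n * (Real.log n : ℂ) ^ j) s

/-- `L` is a good scale: no primitive character of conductor at most `L^C₀` has a tiny value
at `1 + 1/L`. -/
def Good (C₀ : ℕ) (L : ℝ) : Prop :=
  ∀ q : ℕ, 2 ≤ q → (q : ℝ) ≤ L ^ C₀ → ∀ χ : DirichletCharacter ℂ q, χ.IsPrimitive →
    1 / Real.log L ^ 8 ≤ ‖DD χ 0 (1 + 1 / (L : ℂ))‖

/-- The error term in arithmetic progressions modulo `A D`. -/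
noncomputable def EE (A : ℕ) (L : ℝ) (D b : ℕ) : ℝ :=
  |∑ n ∈ Ioc 0 (NN L (Real.log A)) with n ≡ b [MOD A * D], vonMangoldt n * wt L (Real.log A) n
    - (∑ n ∈ Ioc 0 (NN L (Real.log A)), vonMangoldt n * wt L (Real.log A) n)
        / (Nat.totient (A * D) : ℝ)|

/-! ## Sieve part -/

/-- The forms `A i * n + B i` are in standard position with respect to `W`. -/
structure Std (k D₀ : ℕ) (A B : Fin k → ℕ) (W : ℕ) : Prop where
  Apos : ∀ i, 0 < A i
  Bpos : ∀ i, 0 < B i
  Wpos : 0 < W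
  small : ∀ p : ℕ, p.Prime → p ≤ D₀ → p ∣ W
  dvdA : ∀ i, ∀ p : ℕ, p.Prime → (p ∣ A i ↔ p ∣ W)
  cop : ∀ i, Nat.Coprime (B i) W
  det : ∀ i j, i ≠ j → ∀ p : ℕ, p.Prime → (p : ℤ) ∣ (A i : ℤ) * B j - (A j : ℤ) * B i → p ∣ W

/-- The primes up to `R` which do not divide `W`. -/
def PS (W R : ℕ) : Finset ℕ := {p ∈ Nat.primesLE R | ¬ p ∣ W}

lemma mem_PS {W R p : ℕ} : p ∈ PS W R ↔ p ≤ R ∧ p.Prime ∧ ¬ p ∣ W := by
  simp [PS, Nat.mem_primesLE, and_assoc]

/-- The local functions. The label `some i` means the prime `p` is attached to the form `i`. -/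
noncomputable def Phi {k : ℕ} (p : ℝ) (s e : Option (Fin k)) : ℝ :=
  match s with
  | none => 1
  | some i => (1 - if e = some i then p else 0) / (p - 1)

/-- The model distribution of the pattern at `p` of a random integer. -/
noncomputable def mu0 {k : ℕ} (p : ℝ) (e : Option (Fin k)) : ℝ :=
  match e with
  | none => 1 - k / p
  | some _ => 1 / p

/-- The model distribution of the pattern at `p` of `n` given that the form `m` is prime at `n`. -/
noncomputable def mu1 {k : ℕ} (m : Fin k) (p : ℝ) (e : Option (Fin k)) : ℝ :=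
  match e with
  | none => 1 - (k - 1) / (p - 1)
  | some i => if i = m then 0 else 1 / (p - 1)

section
variable {ι Ω : Type*} [Fintype ι] [DecidableEq ι] [Fintype Ω]

/-- Expectation with respect to a product of signed measures on `Ω`. -/
noncomputable def Ex (μ : ι → Ω → ℝ) (H : (ι → Ω) → ℝ) : ℝ :=
  ∑ e : ι → Ω, (∏ p, μ p (e p)) * H e

end

section
variable {ι : Type*} [Fintype ι] [DecidableEq ι] {k : ℕ}

/-- The sieve weight as a function of the pattern. -/
noncomputable def FF (pr : ι → ℕ) (y : (ι → Option (Fin k)) → ℝ) (e : ι → Option (Fin k)) : ℝ :=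
  ∑ σ : ι → Option (Fin k), y σ * ∏ p, Phi (pr p : ℝ) (σ p) (e p)

/-- The indicator of: the pattern `e` extends the label `τ`. -/
noncomputable def ind (τ e : ι → Option (Fin k)) : ℝ :=
  ∏ p, (if τ p = none then (1 : ℝ) else if e p = τ p then 1 else 0)

/-- The product of the primes carrying a label. -/
noncomputable def dd (pr : ι → ℕ) (σ : ι → Option (Fin k)) : ℕ :=
  ∏ p, (if σ p = none then 1 else pr p)

/-- The set of primes with label `some i`. -/
def cls (σ : ι → Option (Fin k)) (i : Fin k) : Finset ι := {p | σ p = some i}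

end

open Classical in
/-- The pattern of the integer `n`: which form is divisible by `p`. -/
noncomputable def pat {k : ℕ} (A B : Fin k → ℕ) (P : Finset ℕ) (n : ℕ) (p : P) : Option (Fin k) :=
  if h : ∃ i, (p : ℕ) ∣ A i * n + B i then some h.choose else none

/-- `∑_{S ⊆ P, ∑ log p ≤ x} ∏ 1/(p-1)`. -/
noncomputable def HP (P : Finset ℕ) (x : ℝ) : ℝ :=
  ∑ S ∈ P.powerset.filter (fun S : Finset ℕ => ∑ p ∈ S, Real.log (p : ℝ) ≤ x),
    ∏ p ∈ S, (1 / ((p : ℝ) - 1))

/-- Coefficients of the dyadic step function. -/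
noncomputable def cJ (J j : ℕ) : ℝ := if j < J then 1 / 2 ^ (j + 1) else 1 / 2 ^ J

/-- The dyadic step function of `x = ∑ log p`: equal to `2^(-j)` on `(2^(j-1) θ, 2^j θ]`, and `0`
beyond `2^J θ`. -/
noncomputable def gJ (J : ℕ) (θ x : ℝ) : ℝ :=
  ∑ j ∈ range (J + 1), if x ≤ 2 ^ j * θ then cJ J j else 0

/-! ## The equation -/

/-- `a p - b q = c` has infinitely many solutions in primes `p, q`. -/
def InfSol (a b : ℕ) (c : ℤ) : Prop :=
  {pq : ℕ × ℕ | pq.1.Prime ∧ pq.2.Prime ∧ (a : ℤ) * pq.1 - b * pq.2 = c}.Infinite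

end Pool.Agent.helper39.MT
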