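import Pool.Agent.helper14.MT.Model
import Pool.Agent.helper17.MT.TR11a
import Pool.Agent.helper53.MT.TR11b
import Pool.Agent.helper99.MT.AN9

/-!
# FI1: many primes among linear forms in standard position
-/

namespace Pool.Agent.helper39.MT

open Finset Real ArithmeticFunction

lemma fi1_Ex_nonneg {k W R D₀ : ℕ} (hD : 4 * k + 4 ≤ D₀)
    (hW : ∀ p : ℕ, p.Prime → p ≤ D₀ → p ∣ W)
    (y : (PS W R → Option (Fin k)) → ℝ) :
    0 ≤ Ex (fun p : PS W R => mu0 (p : ℝ))
      (fun e => FF (fun p : PS W R => (p : ℕ)) y e ^ 2) := by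
  unfold Ex
  refine sum_nonneg fun e _ => mul_nonneg (prod_nonneg fun p _ => ?_) (sq_nonneg _)
  have hp := mem_PS.1 p.2
  have hlt : D₀ < (p : ℕ) := by
    by_contra hcon
    exact hp.2.2 (hW p hp.2.1 (not_lt.1 hcon))
  have hk : (k : ℝ) ≤ ((p : ℕ) : ℝ) := by
    have : k ≤ (p : ℕ) := by omega
    exact_mod_cast this
  have hp0 : (0 : ℝ) < ((p : ℕ) : ℝ) := by exact_mod_cast hp.2.1.pos
  rcases e p with _ | i
  · simp only [mu0]
    rw [sub_nonneg, div_le_one hp0]
    exact hk
  · simp only [mu0]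
    positivity

lemma fi1_wt_support {L : ℝ} (hL : 0 < L) {n : ℕ} (hn : 0 < n) (h : wt L 0 n ≠ 0) :
    Real.exp (L / 2) < n ∧ (n : ℝ) < Real.exp L := by
  have hn0 : (0 : ℝ) < n := by exact_mod_cast hn
  have hV : V ((Real.log n - 0) / L) ≠ 0 := by
    intro h0
    exact h (by rw [wt, h0, zero_div])
  rw [sub_zero] at hV
  constructor
  · by_contra hcon
    apply hV
    apply V_eq_zero_left
    rw [div_le_iff₀ hL]
    have := Real.log_le_log hn0 (not_lt.1 hcon)
    rw [Real.log_exp] at this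
    linarith
  · by_contra hcon
    apply hV
    apply V_eq_zero_right
    rw [le_div_iff₀ hL]
    have := Real.log_le_log (Real.exp_pos L) (not_lt.1 hcon)
    rw [Real.log_exp] at this
    linarith

/-- FI1, from the existence of good scales. -/
theorem mt_std_of (good_scales : ∀ C₀ : ℕ, ∀ N : ℕ, ∃ L : ℕ, N ≤ L ∧ Good C₀ L) (r : ℕ) : ∃ k D₀ : ℕ, 2 ≤ k ∧ ∀ (A B : Fin k → ℕ) (W : ℕ), Std k D₀ A B W →
    ∀ N : ℕ, ∃ n ≥ N, r < #{i : Fin k | (A i * n + B i).Prime} := by
  obtain ⟨k, D₁, hk, hmodel⟩ := model_ineq (6000 * (r + 1))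
  refine ⟨k, max D₁ (4 * k + 4), hk, fun A B W h N => ?_⟩
  by_contra hcon
  push Not at hcon
  have hD : 4 * k + 4 ≤ max D₁ (4 * k + 4) := le_max_right _ _
  obtain ⟨R₀, hR₀⟩ := hmodel W h.Wpos fun p hp hpd => h.small p hp (hpd.trans (le_max_left _ _))
  obtain ⟨L₁, hS1⟩ := S1_upper_of wt_sum_le h hD
  obtain ⟨C₀, L₂, hS2⟩ := S2_lower_of bv_log h hk hD
  -- choice of the scale
  set AB : ℕ := ∑ i, (A i + B i) with hAB
  obtain ⟨T, hT⟩ : ∃ T : ℝ, T = |L₁| + |L₂| + 200 * Real.log (R₀ + 2) + 2 * Real.log (N + 1) +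
      Real.log (AB + 1) + 1000 + 80 * k + 4 * Real.log (160 * (r + 1)) := ⟨_, rfl⟩
  obtain ⟨L', hL'N, hgood⟩ := good_scales C₀ ⌈T⌉₊
  set L : ℝ := (L' : ℝ) with hLdef
  have hTL : T ≤ L := (Nat.le_ceil T).trans (by rw [hLdef]; exact_mod_cast hL'N)
  have e1 := abs_nonneg L₁
  have e2 := abs_nonneg L₂
  have e3 : 0 ≤ Real.log ((R₀ : ℝ) + 2) := Real.log_nonneg (by
    have : (0 : ℝ) ≤ R₀ := Nat.cast_nonneg _
    linarith)
  have e4 : 0 ≤ Real.log ((N : ℝ) + 1) := Real.log_nonneg (by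
    have : (0 : ℝ) ≤ N := Nat.cast_nonneg _
    linarith)
  have e5 : 0 ≤ Real.log ((AB : ℝ) + 1) := Real.log_nonneg (by
    have : (0 : ℝ) ≤ AB := Nat.cast_nonneg _
    linarith)
  have e6 : (0 : ℝ) ≤ k := Nat.cast_nonneg _
  have e7 : 0 ≤ Real.log (160 * ((r : ℝ) + 1)) := Real.log_nonneg (by
    have : (0 : ℝ) ≤ r := Nat.cast_nonneg _
    linarith)
  have hL1 : L₁ ≤ L := by linarith [le_abs_self L₁]
  have hL2 : L₂ ≤ L := by linarith [le_abs_self L₂]
  have hL1000 : 1000 ≤ L := by linarith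
  have hLpos : 0 < L := by linarith
  -- the parameter R
  set R : ℕ := ⌊Real.exp (L / 200)⌋₊ with hRdef
  have hRle : (R : ℝ) ≤ Real.exp (L / 200) := Nat.floor_le (Real.exp_pos _).le
  have hexpR : (R₀ : ℝ) + 2 ≤ Real.exp (L / 200) := by
    rw [← Real.exp_log (show (0 : ℝ) < (R₀ : ℝ) + 2 by positivity)]
    exact Real.exp_le_exp.2 (by linarith)
  have hRge : R₀ + 2 ≤ R := Nat.le_floor (by push_cast; exact hexpR)
  have hR2 : 2 ≤ R := by omega
  have hlogR : L / 300 ≤ Real.log R := by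
    have h1 : Real.exp (L / 200) / 2 ≤ R := by
      have h2 := Nat.lt_floor_add_one (Real.exp (L / 200))
      have h3 : (2 : ℝ) ≤ R := by exact_mod_cast hR2
      have h4 : Real.exp (L / 200) < (R : ℝ) + 1 := h2
      linarith
    have h2 := Real.log_le_log (by positivity) h1
    rw [Real.log_div (Real.exp_pos _).ne' two_ne_zero, Real.log_exp] at h2
    have h3 := Real.log_two_lt_d9
    linarith
  obtain ⟨y, hy1, hy2, hE1, hE01⟩ := hR₀ R (by omega)
  have hE0 := fi1_Ex_nonneg (R := R) (W := W) hD (fun p hp hpd => h.small p hp hpd) y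
  set E0 := Ex (fun p : PS W R => mu0 (p : ℝ))
    (fun e => FF (fun p : PS W R => (p : ℕ)) y e ^ 2) with hE0def
  set E1 := ∑ m : Fin k, Ex (fun p : PS W R => mu1 m (p : ℝ))
    (fun e => FF (fun p : PS W R => (p : ℕ)) y e ^ 2) with hE1def
  have hs1 := hS1 L hL1 R hR2 hRle y hy1 hy2
  have hs2 := hS2 L hL2 hgood R hR2 hRle y hy1 hy2
  set F : ℕ → ℝ := fun n => FF (fun p : PS W R => (p : ℕ)) y (pat A B (PS W R) n) ^ 2 with hF
  have hF0 : ∀ n, 0 ≤ F n := fun n => sq_nonneg _
  -- upper bound for the sum of the S2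
  have hup : ∑ m : Fin k, ∑ n ∈ Ioc 0 (NN L 0) with (A m * n + B m).Prime,
      wt L 0 n * Real.log (A m * n + B m) * F n ≤ 2 * r * L * ∑ n ∈ Ioc 0 (NN L 0), wt L 0 n * F n := by
    simp_rw [sum_filter]
    rw [sum_comm, mul_sum]
    refine sum_le_sum fun n hn => ?_
    rw [mem_Ioc] at hn
    rcases eq_or_ne (wt L 0 n) 0 with h0 | h0
    · simp [h0]
    obtain ⟨hn1, hn2⟩ := fi1_wt_support hLpos hn.1 h0
    have hNn : N ≤ n := by
      have h1 : (N : ℝ) + 1 ≤ Real.exp (L / 2) := by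
        rw [← Real.exp_log (show (0 : ℝ) < (N : ℝ) + 1 by positivity)]
        exact Real.exp_le_exp.2 (by linarith)
      have h2 : (N : ℝ) < n := by linarith
      exact_mod_cast h2.le
    have hcard := hcon n hNn
    have hlog : ∀ m : Fin k, Real.log ((A m : ℝ) * n + B m) ≤ 2 * L := by
      intro m
      have hn1' : (1 : ℝ) ≤ n := by exact_mod_cast hn.1
      have hA : (0 : ℝ) < A m := by exact_mod_cast h.Apos m
      have hB : (0 : ℝ) < B m := by exact_mod_cast h.Bpos m
      have h1 : ((A m : ℝ) * n + B m) ≤ (AB + 1) * Real.exp L := by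
        have h2 : (A m : ℝ) + B m ≤ AB := by
          rw [hAB]
          push_cast
          exact single_le_sum (f := fun i => (A i : ℝ) + B i) (fun i _ => by positivity) (mem_univ m)
        have h3 : (B m : ℝ) ≤ B m * n := le_mul_of_one_le_right hB.le hn1'
        calc (A m : ℝ) * n + B m ≤ A m * n + B m * n := by linarith
          _ = (A m + B m) * n := by ring
          _ ≤ (AB + 1) * Real.exp L := by
            have : (0 : ℝ) ≤ AB := Nat.cast_nonneg _
            exact mul_le_mul (by linarith) hn2.le (by linarith) (by linarith)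
      calc Real.log ((A m : ℝ) * n + B m) ≤ Real.log ((AB + 1) * Real.exp L) :=
            Real.log_le_log (by positivity) h1
        _ = Real.log (AB + 1) + L := by
            rw [Real.log_mul (by positivity) (Real.exp_pos _).ne', Real.log_exp]
        _ ≤ 2 * L := by linarith
    have hw : 0 ≤ wt L 0 n := wt_nonneg _ _ _
    calc ∑ m : Fin k, (if (A m * n + B m).Prime then wt L 0 n * Real.log (A m * n + B m) * F n else 0)
        ≤ ∑ m : Fin k, (if (A m * n + B m).Prime then wt L 0 n * (2 * L) * F n else 0) := by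
          refine sum_le_sum fun m _ => ?_
          split_ifs
          · have := hlog m
            have := hF0 n
            gcongr
          · exact le_rfl
      _ = #{i : Fin k | (A i * n + B i).Prime} * (wt L 0 n * (2 * L) * F n) := by
          rw [← sum_filter, sum_const, nsmul_eq_mul]
      _ ≤ r * (wt L 0 n * (2 * L) * F n) := by
          have := hF0 n
          have h5 : ((#{i : Fin k | (A i * n + B i).Prime} : ℕ) : ℝ) ≤ r := by exact_mod_cast hcard
          gcongr
      _ = 2 * r * L * (wt L 0 n * F n) := by ring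
  -- lower bound
  have hlow : (W : ℝ) / Nat.totient W * (L / 5) * E1 - k / L ≤
      ∑ m : Fin k, ∑ n ∈ Ioc 0 (NN L 0) with (A m * n + B m).Prime,
      wt L 0 n * Real.log (A m * n + B m) * F n := by
    refine le_trans (le_of_eq ?_) (sum_le_sum fun m _ => hs2 m)
    rw [sum_sub_distrib, ← mul_sum, sum_const, card_univ, Fintype.card_fin, nsmul_eq_mul]
    ring
  have hφ : 0 < (Nat.totient W : ℝ) := by exact_mod_cast Nat.totient_pos.2 h.Wpos
  have hW0 : 0 < (W : ℝ) := by exact_mod_cast h.Wpos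
  have hWφ : 1 ≤ (W : ℝ) / Nat.totient W := by
    rw [le_div_iff₀ hφ, one_mul]
    exact_mod_cast Nat.totient_le W
  have hr0 : (0 : ℝ) ≤ r := Nat.cast_nonneg _
  -- main inequality
  have h1 : 20 * (r + 1) * L * E0 ≤ (W : ℝ) / Nat.totient W * E1 := by
    have h2 : 6000 * ((r : ℝ) + 1) * Real.log R * E0 ≤ (W : ℝ) / Nat.totient W * E1 := by
      calc 6000 * ((r : ℝ) + 1) * Real.log R * E0
          = (W : ℝ) / Nat.totient W *
            (6000 * ((r : ℝ) + 1) * Real.log R * ((Nat.totient W : ℝ) / W) * E0) := by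
            field_simp
        _ ≤ _ := by gcongr
    refine le_trans ?_ h2
    have : 6000 * ((r : ℝ) + 1) * (L / 300) * E0 ≤ 6000 * ((r : ℝ) + 1) * Real.log R * E0 := by
      gcongr
    linarith
  have h2 : 1 / 4 ≤ (W : ℝ) / Nat.totient W * E1 := by
    have : E1 ≤ (W : ℝ) / Nat.totient W * E1 := le_mul_of_one_le_left (by linarith) hWφ
    linarith
  have h3 : (W : ℝ) / Nat.totient W * (L / 5) * E1 - k / L ≤
      2 * r * L * (L * E0 + Real.exp (-L / 4)) := by
    refine hlow.trans (hup.trans ?_)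
    gcongr
  have h4 : Real.exp (-L / 4) ≤ 1 / (160 * (r + 1)) := by
    have h5 : 160 * ((r : ℝ) + 1) ≤ Real.exp (L / 4) := by
      rw [← Real.exp_log (show (0 : ℝ) < 160 * ((r : ℝ) + 1) by positivity)]
      exact Real.exp_le_exp.2 (by linarith)
    rw [show -L / 4 = -(L / 4) by ring, Real.exp_neg, one_div]
    exact inv_anti₀ (by positivity) h5
  have h5 : (k : ℝ) / L ≤ 1 / 80 := by
    rw [div_le_iff₀ hLpos]
    linarith
  have h6 : 2 * r * L * Real.exp (-L / 4) ≤ L / 80 := by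
    calc 2 * r * L * Real.exp (-L / 4) ≤ 2 * r * L * (1 / (160 * (r + 1))) := by gcongr
      _ = L / 80 * (r / (r + 1)) := by field_simp; ring
      _ ≤ L / 80 * 1 := by
        gcongr
        rw [div_le_one (by positivity)]
        linarith
      _ = L / 80 := by ring
  set X := (W : ℝ) / Nat.totient W * E1 with hX
  have h7 : (W : ℝ) / Nat.totient W * (L / 5) * E1 = L / 5 * X := by rw [hX]; ring
  rw [h7] at h3
  have h8 : L / 10 * (20 * (r + 1) * L * E0) ≤ L / 10 * X := by gcongr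
  have h9 : 2 * r * L * (L * E0) ≤ L / 10 * (20 * (r + 1) * L * E0) := by
    have : 0 ≤ L * L * E0 := by positivity
    have e' : L / 10 * (20 * ((r : ℝ) + 1) * L * E0) = 2 * r * L * (L * E0) + 2 * (L * L * E0) := by
      ring
    linarith
  have h10 : L / 10 * (1 / 4) ≤ L / 10 * X := by gcongr
  have h11 : 2 * r * L * (L * E0 + Real.exp (-L / 4)) =
    2 * r * L * (L * E0) + 2 * r * L * Real.exp (-L / 4) := by ring
  rw [h11] at h3
  have h12 : L / 5 * X = L / 10 * X + L / 10 * X := by ring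
  linarith

end Pool.Agent.helper39.MT
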