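import Pool.Agent.helper39.MT.FI1
import Pool.Agent.helper35.MT.AN6
import Pool.Agent.helper44.MT.FI2
import Pool.Agent.helper44.MT.CO1

/-!
# Maynard-Tao for linear forms
-/

namespace Pool.Agent.helper39.MT

open Finset

/-- Many primes among `k` linear forms in standard position. -/
theorem mt_std (r : ℕ) : ∃ k D₀ : ℕ, 2 ≤ k ∧ ∀ (A B : Fin k → ℕ) (W : ℕ), Std k D₀ A B W →
    ∀ N : ℕ, ∃ n ≥ N, r < #{i : Fin k | (A i * n + B i).Prime} :=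
  mt_std_of good_scales r

/-- **Maynard-Tao** for admissible systems of linear forms. -/
theorem maynard_tao (r : ℕ) : ∃ k : ℕ, 2 ≤ k ∧ ∀ (A : Fin k → ℕ) (B : Fin k → ℤ), (∀ i, 0 < A i) →
    (∀ i j, i ≠ j → (A i : ℤ) * B j ≠ A j * B i) →
    (∀ p : ℕ, p.Prime → ∃ n : ℕ, ∀ i, ¬ (p : ℤ) ∣ A i * n + B i) →
    ∀ N : ℕ, ∃ n ≥ N, r < #{i : Fin k | ((A i : ℤ) * n + B i).toNat.Prime} :=
  maynard_tao_of r (mt_std r)

/-- The common source of the corollaries. -/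
theorem two_primes_general : ∃ k : ℕ, 2 ≤ k ∧ ∀ (u : Fin k → ℕ) (e : Fin k → ℤ), (∀ i, 0 < u i) →
    Function.Injective e →
    (∀ p : ℕ, p.Prime → ∃ n : ℤ, ∀ i, ((p ^ (u i).factorization p : ℕ) : ℤ) ∣ n + e i ∧
      ¬ ((p ^ ((u i).factorization p + 1) : ℕ) : ℤ) ∣ n + e i) →
    ∃ i j, i ≠ j ∧ InfSol (u i) (u j) (e i - e j) :=
  two_primes_general_of (maynard_tao 1)

end Pool.Agent.helper39.MT
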